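import Pool.Agent.Lib_MP_4369f4_top.MainTop

/-!
For every n >= 3 the polynomial ring C[t_1,...,t_n] is first-order definable in the field
C(t_1,...,t_n), with the variables t_1,...,t_n as the only parameters.
-/

set_option autoImplicit false

namespace Pool.Agent.Results.MP_4369f4_lc.FullRing

open FirstOrder

theorem result (n : ℕ) (hn : 3 ≤ n) : ∃ Φ : Language.ring.Formula (Fin (n + 1)),
    ∀ x : FractionRing (MvPolynomial (Fin n) ℂ),
    letI := Ring.compatibleRingOfRing (FractionRing (MvPolynomial (Fin n) ℂ))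
    (Φ.Realize (Fin.cons (α := fun _ => FractionRing (MvPolynomial (Fin n) ℂ)) x
        (fun j => algebraMap (MvPolynomial (Fin n) ℂ) (FractionRing (MvPolynomial (Fin n) ℂ))
          (MvPolynomial.X j))) ↔
      ∃ p : MvPolynomial (Fin n) ℂ, x = algebraMap (MvPolynomial (Fin n) ℂ)
        (FractionRing (MvPolynomial (Fin n) ℂ)) p) :=
  MP4369f4.main_top n hn

end Pool.Agent.Results.MP_4369f4_lc.FullRing
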