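import Pool.Agent.Lib_MP_4369f4_m.Main

/-!
For every m >= 1 one first-order formula in the language of rings defines, for all n > m and all
choices of m of the n variables, the polynomial ring over C in these m variables inside
C(t_1,...,t_n), with these m variables as the only parameters.
-/

set_option autoImplicit false

namespace Pool.Agent.Results.MP_4369f4_lc.PolynomialRings

open FirstOrder

theorem result (m : ℕ) : ∃ Φ : Language.ring.Formula (Fin (m + 2)), ∀ n : ℕ, m + 1 < n →
    ∀ ι : Fin (m + 1) → Fin n, Function.Injective ι →
    ∀ x : FractionRing (MvPolynomial (Fin n) ℂ),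
    letI := Ring.compatibleRingOfRing (FractionRing (MvPolynomial (Fin n) ℂ))
    (Φ.Realize (Fin.cons (α := fun _ => FractionRing (MvPolynomial (Fin n) ℂ)) x
        (fun j => algebraMap (MvPolynomial (Fin n) ℂ) (FractionRing (MvPolynomial (Fin n) ℂ))
          (MvPolynomial.X (ι j)))) ↔
      ∃ p : MvPolynomial (Fin (m + 1)) ℂ, x = algebraMap (MvPolynomial (Fin n) ℂ)
        (FractionRing (MvPolynomial (Fin n) ℂ)) (MvPolynomial.rename ι p)) :=
  MP4369f4.main_m m

end Pool.Agent.Results.MP_4369f4_lc.PolynomialRings
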